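import Pool.Agent.V11178.Signed
import Pool.Agent.V11178.Zero3

/-!
# `τ±(ℤ_n, 3) = v(n)` for every positive integer `n`
-/

open Finset
open scoped Pointwise

namespace Pool.Agent.Results.MP_25b479_co.ExactValue

open Pool.Agent.V11178 Pool.Agent.V11178.Zero3

/-- `τ±(ℤ_n, 3)`: the largest size of a set `A ⊆ ℤ_n` with `0 ∉ 3± A`. -/
noncomputable def tau3 (n : ℕ) : ℕ :=
  sSup {k : ℕ | ∃ A : Finset (ZMod n), A.card = k ∧ (0 : ZMod n) ∉ signedSumset A 3}

open Classical in
/-- The number `v(n)`. -/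
noncomputable def v (n : ℕ) : ℚ :=
  if ∃ p : ℕ, p.Prime ∧ p % 3 = 2 ∧ p ∣ n then
    (1 + 1 / ((sInf {p : ℕ | p.Prime ∧ p % 3 = 2 ∧ p ∣ n} : ℕ) : ℚ)) * ((n : ℚ) / 3)
  else ⌊((n : ℚ) - 1) / 3⌋

theorem exists_prime_two (d : ℕ) (hd : d % 3 = 2) : ∃ p, p.Prime ∧ p % 3 = 2 ∧ p ∣ d := by
  by_contra hcon
  push Not at hcon
  have : ∀ d : ℕ, (∀ p, p.Prime → p ∣ d → p % 3 ≠ 2) → d ≠ 0 → d % 3 ≠ 2 := by
    intro d
    induction d using Nat.recOnMul with
    | zero => intro _ h; exact absurd rfl h
    | one => intro _ _; decide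
    | prime p hp => intro h _; exact h p hp dvd_rfl
    | mul a b iha ihb =>
      intro h hne
      have ha := iha (fun p hp hpa => h p hp (hpa.mul_right _)) (left_ne_zero_of_mul hne)
      have hb := ihb (fun p hp hpb => h p hp (hpb.mul_left _)) (right_ne_zero_of_mul hne)
      rw [Nat.mul_mod]
      have ha3 : a % 3 < 3 := Nat.mod_lt _ (by norm_num)
      have hb3 : b % 3 < 3 := Nat.mod_lt _ (by norm_num)
      interval_cases (a % 3) <;> interval_cases (b % 3) <;> simp_all
  exact this d (fun p hp hpd h3 => hcon p hp h3 hpd) (by omega) hd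

/-- The lower bound construction: residues `m+1, …, d-m-1` modulo a divisor `d` of `n`. -/
theorem lower (n d q m : ℕ) (hn : n = d * q) (hn0 : 0 < n) (hm : d < 3 * m + 3)
    (hm2 : 3 * m ≤ d) :
    ∃ A : Finset (ZMod n), A.card = (d - 2 * m - 1) * q ∧ (0 : ZMod n) ∉ signedSumset A 3 := by
  have hd0 : 0 < d := Nat.pos_of_ne_zero (by rintro rfl; simp at hn; omega)
  refine ⟨(Finset.Icc (m + 1) (d - m - 1) ×ˢ Finset.range q).image
    (fun x : ℕ × ℕ => ((x.1 + d * x.2 : ℕ) : ZMod n)), ?_, ?_⟩
  · rw [Finset.card_image_of_injOn, Finset.card_product, Nat.card_Icc, Finset.card_range]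
    · congr 1
      omega
    · intro x hx y hy hxy
      rw [Finset.mem_coe, Finset.mem_product, Finset.mem_Icc, Finset.mem_range] at hx hy
      have hx2 : x.1 + d * x.2 < n := by
        have : d * x.2 + d ≤ d * q := by
          calc d * x.2 + d = d * (x.2 + 1) := by ring
            _ ≤ d * q := Nat.mul_le_mul_left _ hx.2
        omega
      have hy2 : y.1 + d * y.2 < n := by
        have : d * y.2 + d ≤ d * q := by
          calc d * y.2 + d = d * (y.2 + 1) := by ring
            _ ≤ d * q := Nat.mul_le_mul_left _ hy.2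
        omega
      simp only at hxy
      rw [ZMod.natCast_eq_natCast_iff', Nat.mod_eq_of_lt hx2, Nat.mod_eq_of_lt hy2] at hxy
      have h1 : x.1 = y.1 := by
        have := congrArg (· % d) hxy
        simp only [Nat.add_mul_mod_self_left] at this
        rwa [Nat.mod_eq_of_lt (by omega), Nat.mod_eq_of_lt (by omega)] at this
      have h2 : x.2 = y.2 := by
        rw [h1] at hxy
        exact Nat.eq_of_mul_eq_mul_left hd0 (by omega)
      exact Prod.ext h1 h2
  · rw [zero_mem_three]
    have hdn : d ∣ n := ⟨q, hn⟩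
    have hcast : ∀ x ∈ ((Finset.Icc (m + 1) (d - m - 1) ×ˢ Finset.range q).image
        (fun x : ℕ × ℕ => ((x.1 + d * x.2 : ℕ) : ZMod n))), ∃ i : ℤ, (m : ℤ) + 1 ≤ i ∧
        i ≤ (d : ℤ) - m - 1 ∧ ZMod.castHom hdn (ZMod d) x = (i : ZMod d) := by
      intro x hx
      rw [Finset.mem_image] at hx
      obtain ⟨y, hy, rfl⟩ := hx
      rw [Finset.mem_product, Finset.mem_Icc] at hy
      refine ⟨(y.1 : ℤ), by omega, by omega, ?_⟩
      rw [map_natCast]
      push_cast
      rw [ZMod.natCast_self]
      ring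
    rintro ⟨a, ha, b, hb, c, hc, h⟩
    obtain ⟨i, hi1, hi2, hi3⟩ := hcast a ha
    obtain ⟨j, hj1, hj2, hj3⟩ := hcast b hb
    obtain ⟨k, hk1, hk2, hk3⟩ := hcast c hc
    rcases h with h | h
    · have h4 := congrArg (ZMod.castHom hdn (ZMod d)) h
      rw [map_add, map_add, map_zero, hi3, hj3, hk3] at h4
      have h5 : ((i + j + k : ℤ) : ZMod d) = 0 := by push_cast; exact h4
      rw [ZMod.intCast_zmod_eq_zero_iff_dvd] at h5
      have h6 : (d : ℤ) ∣ i + j + k - d := dvd_sub_self_right.mpr h5
      have h7 := Int.eq_zero_of_abs_lt_dvd h6 (by rw [abs_lt]; constructor <;> omega)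
      omega
    · have h4 := congrArg (ZMod.castHom hdn (ZMod d)) h
      rw [map_add, hi3, hj3, hk3] at h4
      have h5 : ((i + j - k : ℤ) : ZMod d) = 0 := by push_cast; rw [h4]; ring
      rw [ZMod.intCast_zmod_eq_zero_iff_dvd] at h5
      have h7 := Int.eq_zero_of_abs_lt_dvd h5 (by rw [abs_lt]; constructor <;> omega)
      omega

theorem even_card (n : ℕ) (hn : n % 2 = 1) (B : Finset (ZMod n)) (hB : ∀ x ∈ B, -x ∈ B)
    (h0 : (0 : ZMod n) ∉ B) : B.card % 2 = 0 := by
  have h1 : ∑ x ∈ B, (1 : ZMod 2) = 0 := by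
    refine Finset.sum_involution (fun x _ => -x) ?_ ?_ (fun x hx => hB x hx) ?_
    · intro x _; decide
    · intro x hx _ hxx
      apply h0
      have h2 : (2 : ZMod n) * x = 0 := by
        have : x + x = 0 := by nth_rewrite 1 [← hxx]; simp
        rw [two_mul, this]
      have hu : IsUnit ((2 : ℕ) : ZMod n) := by
        rw [ZMod.isUnit_iff_coprime, Nat.coprime_two_left]
        exact Nat.odd_iff.mpr hn
      have hx0 : x = 0 := by
        have := hu.mul_right_eq_zero (b := x)
        exact this.mp (by exact_mod_cast h2)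
      rwa [hx0] at hx
    · intro x hx; simp
  rw [Finset.sum_const, nsmul_eq_mul, mul_one] at h1
  have := (ZMod.natCast_eq_zero_iff B.card 2).mp h1
  omega

theorem tau3_eq (n k : ℕ) (hn : 0 < n)
    (h1 : ∃ A : Finset (ZMod n), A.card = k ∧ (0 : ZMod n) ∉ signedSumset A 3)
    (h2 : ∀ A : Finset (ZMod n), (0 : ZMod n) ∉ signedSumset A 3 → A.card ≤ k) : tau3 n = k := by
  apply le_antisymm
  · refine csSup_le ⟨k, h1⟩ ?_
    rintro j ⟨A, rfl, hA⟩
    exact h2 A hA
  · refine le_csSup ⟨k, ?_⟩ h1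
    rintro j ⟨A, rfl, hA⟩
    exact h2 A hA

/-- **Main result**: `τ±(ℤ_n, 3) = v(n)` for every positive integer `n`. -/
theorem result (n : ℕ) (hn : 0 < n) : (tau3 n : ℚ) = v n := by
  have : NeZero n := ⟨hn.ne'⟩
  unfold v
  split_ifs with hex
  · -- there is a prime divisor congruent to 2 modulo 3
    have hmem := Nat.sInf_mem (s := {p : ℕ | p.Prime ∧ p % 3 = 2 ∧ p ∣ n}) hex
    have hmin : ∀ r : ℕ, r.Prime → r % 3 = 2 → r ∣ n →
        sInf {p : ℕ | p.Prime ∧ p % 3 = 2 ∧ p ∣ n} ≤ r := fun r h1 h2 h3 =>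
      Nat.sInf_le ⟨h1, h2, h3⟩
    obtain ⟨p, hp⟩ : ∃ p, p = sInf {p : ℕ | p.Prime ∧ p % 3 = 2 ∧ p ∣ n} := ⟨_, rfl⟩
    rw [← hp] at hmem hmin ⊢
    obtain ⟨hpp, hp3, hpn⟩ := hmem
    obtain ⟨q, hq⟩ := hpn
    obtain ⟨t, ht⟩ : ∃ t, p = 3 * t + 2 := ⟨p / 3, by omega⟩
    have hq0 : 0 < q := Nat.pos_of_ne_zero (by rintro rfl; omega)
    have hτ : tau3 n = (t + 1) * q := by
      apply tau3_eq n _ hn
      · obtain ⟨A, hA, hA0⟩ := lower n p q t hq hn (by omega) (by omega)
        refine ⟨A, ?_, hA0⟩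
        rw [hA]
        congr 1
        omega
      · intro A hA
        obtain ⟨N, h, b, hN, hh, hb, hb3⟩ := sumfree_bound (A ∪ -A) (sym_sumfree hA)
        rw [ZMod.card] at hN
        have hAB : A.card ≤ b * h :=
          (Finset.card_le_card Finset.subset_union_left).trans hb
        have key : 3 * (b * h) ≤ (3 * t + 3) * q := by
          by_cases hN3 : N % 3 = 2
          · obtain ⟨r, hr, hr3, hrN⟩ := exists_prime_two N hN3
            have hpr : p ≤ r := hmin r hr hr3 (hrN.trans ⟨h, hN.symm⟩)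
            have hrN' : r ≤ N := Nat.le_of_dvd (by omega) hrN
            have hhq : h ≤ q := by
              by_contra hcon
              push Not at hcon
              have : p * q < N * h := by
                calc p * q < p * h := Nat.mul_lt_mul_of_pos_left hcon hpp.pos
                  _ ≤ N * h := Nat.mul_le_mul_right _ (hpr.trans hrN')
              omega
            calc 3 * (b * h) = (3 * b) * h := by ring
              _ ≤ (N + 1) * h := Nat.mul_le_mul_right _ hb3
              _ = p * q + h := by rw [Nat.add_mul, one_mul, hN, hq]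
              _ ≤ p * q + q := by omega
              _ = (3 * t + 3) * q := by rw [ht]; ring
          · have hb4 : 3 * b ≤ N := by omega
            calc 3 * (b * h) = (3 * b) * h := by ring
              _ ≤ N * h := Nat.mul_le_mul_right _ hb4
              _ = p * q := by rw [hN, hq]
              _ ≤ (3 * t + 3) * q := Nat.mul_le_mul_right _ (by omega)
        have : 3 * A.card ≤ 3 * ((t + 1) * q) := by
          calc 3 * A.card ≤ 3 * (b * h) := by omega
            _ ≤ (3 * t + 3) * q := key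
            _ = 3 * ((t + 1) * q) := by ring
        omega
    rw [hτ, hq, ht]
    have ht0 : (3 * (t : ℚ) + 2) ≠ 0 := by positivity
    push_cast
    field_simp
    ring
  · push Not at hex
    have hno : ∀ N : ℕ, N ∣ n → N % 3 ≠ 2 := by
      intro N hN h3
      obtain ⟨r, hr, hr3, hrN⟩ := exists_prime_two N h3
      exact hex r hr hr3 (hrN.trans hN)
    have hn3 := hno n dvd_rfl
    have hodd : n % 2 = 1 := by
      by_contra hcon
      exact hex 2 Nat.prime_two (by norm_num) (Nat.dvd_of_mod_eq_zero (by omega))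
    have hτ : tau3 n = (n - 1) / 3 := by
      apply tau3_eq n _ hn
      · obtain ⟨A, hA, hA0⟩ := lower n n 1 (n / 3) (by omega) hn (by omega) (by omega)
        refine ⟨A, ?_, hA0⟩
        rw [hA]
        omega
      · intro A hA
        obtain ⟨N, h, b, hN, hh, hb, hb3⟩ := sumfree_bound (A ∪ -A) (sym_sumfree hA)
        rw [ZMod.card] at hN
        have hAB : A.card ≤ (A ∪ -A).card := Finset.card_le_card Finset.subset_union_left
        have hN3 := hno N ⟨h, hN.symm⟩
        have hb4 : 3 * b ≤ N := by omega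
        have hle : 3 * (b * h) ≤ n := by
          calc 3 * (b * h) = (3 * b) * h := by ring
            _ ≤ N * h := Nat.mul_le_mul_right _ hb4
            _ = n := hN
        have heven : (A ∪ -A).card % 2 = 0 := by
          apply even_card n hodd
          · intro x hx
            rw [Finset.mem_union, Finset.mem_neg'] at hx ⊢
            rw [neg_neg]
            exact hx.symm
          · intro h0
            have := sym_sumfree hA 0 h0 0 h0
            rw [add_zero] at this
            exact this h0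
        omega
    rw [hτ]
    have hfl : ⌊((n : ℚ) - 1) / 3⌋ = (((n - 1) / 3 : ℕ) : ℤ) := by
      rw [Int.floor_eq_iff]
      have h1 : 3 * ((n - 1) / 3) + 1 ≤ n := by omega
      have h2 : n < 3 * ((n - 1) / 3) + 4 := by omega
      have h1' : (3 : ℚ) * (((n - 1) / 3 : ℕ) : ℚ) + 1 ≤ n := by exact_mod_cast h1
      have h2' : (n : ℚ) < 3 * (((n - 1) / 3 : ℕ) : ℚ) + 4 := by exact_mod_cast h2
      constructor
      · rw [Int.cast_natCast]; linarith
      · rw [Int.cast_natCast]; linarith
    rw [hfl, Int.cast_natCast]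

end Pool.Agent.Results.MP_25b479_co.ExactValue
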